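import Pool.Agent.W2helper22.ET.Stm
import Pool.Agent.W2helper22.SM.Exec
import Pool.Agent.W2helper86.SM.Sim
import Mathlib.Analysis.SpecialFunctions.Pow.Asymptotics

/-!
# Piece UP of project ETU: listing the triangles of the pattern
-/

set_option autoImplicit false

namespace Pool.Agent.W2helper28.ET

open Pool.Agent.W2helper22.SM Pool.Agent.W2helper22.ET

/-- the power of the register `0` -/
def powE : ℕ → Expr
  | 0 => .lit 1
  | k + 1 => eMul (powE k) (.reg 0)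

theorem powE_eval (ω : ℕ → ℕ → ℕ) (m : Mem) (k : ℕ) : (powE k).eval ω m = m.v 0 ^ k := by
  induction k with
  | zero => rfl
  | succ k ih =>
    show (powE k).eval ω m * m.v 0 = m.v 0 ^ (k + 1)
    rw [ih, pow_succ]

theorem powE_cost (k : ℕ) : (powE k).cost = 2 * k + 1 := by
  induction k with
  | zero => rfl
  | succ k ih =>
    show (powE k).cost + 1 + 1 = _
    rw [ih]; ring

theorem powE_ok {W : ℕ} (ω : ℕ → ℕ → ℕ) (m : Mem) (k : ℕ) (h1 : 1 ≤ m.v 0) (hk : m.v 0 ^ k < W)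
    (h0 : m.v 0 < W) : (powE k).ok W ω m := by
  induction k with
  | zero => exact lt_of_le_of_lt h1 h0
  | succ k ih =>
    refine ⟨ih (lt_of_le_of_lt (Nat.pow_le_pow_right h1 (Nat.le_succ k)) hk), h0, ?_⟩
    show (powE k).eval ω m * m.v 0 < W
    rw [powE_eval, ← pow_succ]
    exact hk

attribute [irreducible] powE

/-- the flag of a pair is `1` -/
def flagT (i j : ℕ) : Test := .eq (.get 0 (.reg i) (.reg j)) (.lit 1)

/-- the test of a triple -/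
def upTest : Test :=
  .and (.and (flagT 7 8) (.and (flagT 8 9) (flagT 7 9)))
    (.eq (eAdd (eAdd (.get 1 (.reg 7) (.reg 8)) (.get 1 (.reg 8) (.reg 9)))
      (.get 1 (.reg 7) (.reg 9))) (.reg 4))

/-- one entry of the list -/
def upBody : Prog :=
  .seq (.assign 7 (.get 13 (.lit 0) (.reg 6)))
  (.seq (.assign 8 (.get 13 (.lit 1) (.reg 6)))
  (.seq (.assign 9 (.get 13 (.lit 2) (.reg 6)))
    (.ite upTest (.assign 1 (.lit 1)) .skip)))

/-- the program -/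
def upProg (g : Algo) : Prog :=
  .seq (.assign 2 (.lit 1))
  (.seq (.store 10 (.lit 0) (.lit 0) (.reg 0))
  (.seq g.prog.sim
  (.seq (.assign 4 (eMul (.lit 3) (powE 300)))
    (forR 6 (.get 10 (.lit 1) (.lit 0)) upBody))))

/-- the algorithm -/
def upAlgo (g : Algo) : Algo := ⟨upProg g, g.wd + 400⟩

/-- the triple with the number `j` is a triangle of weight zero -/
def Good {n : ℕ} (X : Instance n) (μ : Mem) (j : ℕ) : Prop :=
  X.enc.a 0 (μ.a 2 0 j) (μ.a 2 1 j) = 1 ∧ X.enc.a 0 (μ.a 2 1 j) (μ.a 2 2 j) = 1 ∧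
    X.enc.a 0 (μ.a 2 0 j) (μ.a 2 2 j) = 1 ∧
    X.enc.a 1 (μ.a 2 0 j) (μ.a 2 1 j) + X.enc.a 1 (μ.a 2 1 j) (μ.a 2 2 j) +
      X.enc.a 1 (μ.a 2 0 j) (μ.a 2 2 j) = 3 * n ^ 300

theorem enc_zero_le {n : ℕ} (X : Instance n) (i j : ℕ) : X.enc.a 0 i j ≤ 1 := by
  classical
  unfold Instance.enc
  simp only [if_true]
  split_ifs <;> omega

theorem enc_one_le {n : ℕ} (X : Instance n) (i j : ℕ) : X.enc.a 1 i j ≤ 2 * n ^ 300 := by
  classical
  unfold Instance.enc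
  simp only [one_ne_zero, if_false, if_true]
  split_ifs with h
  · have h1 := abs_le.1 (X.bound ⟨i, h.1⟩ ⟨j, h.2⟩)
    have h2 : X.w ⟨i, h.1⟩ ⟨j, h.2⟩ + (n : ℤ) ^ 300 ≤ ((2 * n ^ 300 : ℕ) : ℤ) := by
      push_cast
      linarith [h1.2]
    exact Int.toNat_le.2 h2
  · omega

theorem enc_zero_iff {n : ℕ} (X : Instance n) (i j : ℕ) :
    X.enc.a 0 i j = 1 ↔ ∃ (hi : i < n) (hj : j < n), X.E.Adj ⟨i, hi⟩ ⟨j, hj⟩ := by
  classical
  unfold Instance.enc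
  simp only [if_true]
  by_cases h : i < n ∧ j < n
  · rw [dif_pos h]
    by_cases h1 : X.E.Adj ⟨i, h.1⟩ ⟨j, h.2⟩
    · rw [if_pos h1]
      exact ⟨fun _ => ⟨h.1, h.2, h1⟩, fun _ => rfl⟩
    · rw [if_neg h1]
      refine ⟨fun h2 => by omega, ?_⟩
      rintro ⟨hi, hj, h2⟩
      exact absurd h2 h1
  · rw [dif_neg h]
    refine ⟨fun h2 => by omega, ?_⟩
    rintro ⟨hi, hj, h2⟩
    exact absurd ⟨hi, hj⟩ h

theorem enc_one_eq {n : ℕ} (X : Instance n) (i j : Fin n) :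
    ((X.enc.a 1 i j : ℕ) : ℤ) = X.w i j + (n : ℤ) ^ 300 := by
  classical
  unfold Instance.enc
  simp only [one_ne_zero, if_false, if_true]
  rw [dif_pos ⟨i.2, j.2⟩]
  have h1 := abs_le.1 (X.bound i j)
  rw [Int.toNat_of_nonneg (by linarith [h1.1])]

theorem yes_iff {n : ℕ} (X : Instance n) (G : SimpleGraph (Fin n)) (hG : X.E ≤ G) (μ : Mem)
    (hl : ∀ x y z : Fin n, G.Adj x y → G.Adj y z → G.Adj x z →
      ∃ k < μ.v 1, μ.a 2 0 k = x ∧ μ.a 2 1 k = y ∧ μ.a 2 2 k = z) :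
    (∃ j < μ.v 1, Good X μ j) ↔ X.Yes := by
  constructor
  · rintro ⟨j, _, h1, h2, h3, h4⟩
    obtain ⟨hx, hy, a1⟩ := (enc_zero_iff X _ _).1 h1
    obtain ⟨_, hz, a2⟩ := (enc_zero_iff X _ _).1 h2
    obtain ⟨_, _, a3⟩ := (enc_zero_iff X _ _).1 h3
    refine ⟨⟨_, hx⟩, ⟨_, hy⟩, ⟨_, hz⟩, a1, a2, a3, ?_⟩
    have e1 := enc_one_eq X ⟨_, hx⟩ ⟨_, hy⟩
    have e2 := enc_one_eq X ⟨_, hy⟩ ⟨_, hz⟩
    have e3 := enc_one_eq X ⟨_, hx⟩ ⟨_, hz⟩
    have h5 : ((X.enc.a 1 (μ.a 2 0 j) (μ.a 2 1 j) + X.enc.a 1 (μ.a 2 1 j) (μ.a 2 2 j) +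
      X.enc.a 1 (μ.a 2 0 j) (μ.a 2 2 j) : ℕ) : ℤ) = ((3 * n ^ 300 : ℕ) : ℤ) := by rw [h4]
    push_cast at h5
    simp only at e1 e2 e3
    linarith
  · rintro ⟨i, j, k, a1, a2, a3, hw⟩
    obtain ⟨t, ht, e1, e2, e3⟩ := hl i j k (hG a1) (hG a2) (hG a3)
    refine ⟨t, ht, ?_, ?_, ?_, ?_⟩
    · rw [e1, e2]; exact (enc_zero_iff X _ _).2 ⟨i.2, j.2, a1⟩
    · rw [e2, e3]; exact (enc_zero_iff X _ _).2 ⟨j.2, k.2, a2⟩
    · rw [e1, e3]; exact (enc_zero_iff X _ _).2 ⟨i.2, k.2, a3⟩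
    · rw [e1, e2, e3]
      have f1 := enc_one_eq X i j
      have f2 := enc_one_eq X j k
      have f3 := enc_one_eq X i k
      zify
      rw [f1, f2, f3]
      linarith

theorem reg_lt {W W' : ℕ} {ω : ℕ → ℕ → ℕ} {p : Prog} {m m' : Mem} {c : ℕ} (hW : W ≤ W')
    (h : Runs W ω p m m' c) (x : ℕ) (hm : m.v x < W') : m'.v x < W' := by
  induction h with
  | skip m => exact hm
  | assign y e m he =>
    rw [setV_v]
    split_ifs
    · exact lt_of_lt_of_le he.val_lt hW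
    · exact hm
  | store r i j e m _ _ he => exact hm
  | seq _ _ ih1 ih2 => exact ih2 (ih1 hm)
  | ite_true _ _ _ ih => exact ih hm
  | ite_false _ _ _ ih => exact ih hm
  | loop_done _ _ => exact hm
  | loop_step _ _ _ _ ih1 ih2 => exact ih2 (ih1 hm)

/-- The program is right. -/
theorem up_run {n W' : ℕ} (g : Algo) (X : Instance n) (ω' : ℕ → ℕ → ℕ) (μ : Mem) (t : ℕ)
    (hn : 1 ≤ n) (h2W : 2 * g.W n ≤ W') (hmx : g.prog.mx < W') (hbig : 6 * n ^ 300 + 20 < W')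
    (hr : Runs (g.W n) (fun i j => ω' (2 * i) j) g.prog (start n) μ t) :
    Tr W' ω' (upProg g) X.enc (700 + 10 * t + 54 * μ.v 1)
      (fun m' => (m'.v 1 ≠ 0 ↔ ∃ j < μ.v 1, Good X μ j)) := by
  have hn300 : n ≤ n ^ 300 := Nat.le_self_pow (by norm_num) n
  have hWpos : 0 < g.W n := Nat.two_pow_pos _
  have hent := hr.entries_lt (fun r i j => (hWpos : (start n).a r i j < g.W n))
  have hN : μ.v 1 < W' := reg_lt (show g.W n ≤ W' by omega) hr 1
    (show (if (1:ℕ) = 0 then n else 0) < W' by norm_num; omega)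
  refine Tr.le (T := 2 + (4 + (10 * t + (604 + (7 + 54 * μ.v 1))))) ?_ (by omega)
  refine Tr.seq (Tr.le (Tr.assign (show 1 < W' by omega) ?_) le_rfl)
  refine Tr.seq (Tr.le (Tr.store (show 0 < W' by omega) (show 0 < W' by omega) ?_ ?_) le_rfl)
  · show (if (0:ℕ) = 2 then 1 else (if (0:ℕ) = 0 then n else 0)) < W'
    norm_num; omega
  simp only [Expr.eval]
  set m₁ := ((X.enc.setV 2 1).setA 10 0 0 ((X.enc.setV 2 1).v 0)) with hm₁
  have hv0 : m₁.v 0 = n := by simp [hm₁, setV_v, Instance.enc]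
  have hv1 : m₁.v 1 = 0 := by simp [hm₁, setV_v, Instance.enc]
  have hv2 : m₁.v 2 = 1 := by simp [hm₁, setV_v]
  have hinst : Inst 1 0 m₁ (start n) := by
    constructor
    · intro x
      simp only [hm₁, setA_a, start, setV_v, Instance.enc]
      by_cases hx : x = 0
      · simp [hx]
      · simp [hx]
    · intro r i j
      simp only [hm₁, setA_a, start, Instance.enc, setV_a]
      rw [if_neg (by omega)]
      split_ifs <;> first | rfl | omega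
  have hsim := W2helper86.SM.sim (g.W n) W' 1 0 (fun i j => ω' (2 * i) j) ω' g.prog m₁ (start n) μ t
    one_pos (by omega) (by omega) h2W (by omega) hmx
    (fun i _ j _ => by simp) hv1 hv2 hinst hr
  refine Tr.seq (Tr.mono hsim ?_)
  rintro m₂ ⟨⟨i1, i2⟩, f1, f2, f3, f4⟩
  have u0 : m₂.v 0 = n := by rw [f1]; exact hv0
  have u1 : m₂.v 1 = 0 := by rw [f1]; exact hv1
  have ha0 : ∀ i j, m₂.a 0 i j = X.enc.a 0 i j := by
    intro i j
    rw [f2 0 (by norm_num)]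
    simp [hm₁, setA_a]
  have ha1 : ∀ i j, m₂.a 1 i j = X.enc.a 1 i j := by
    intro i j
    rw [f2 1 (by norm_num)]
    simp [hm₁, setA_a]
  have ha13 : ∀ i j, m₂.a 13 i j = μ.a 2 i j := by
    intro i j
    have := i2 2 i j
    simpa using this
  have ha10 : m₂.a 10 1 0 = μ.v 1 := i1 1
  have hcost : (Expr.cost (eMul (.lit 3) (powE 300))) + 1 = 604 := by
    simp only [Expr.cost, powE_cost]
  refine Tr.seq (Tr.le (Tr.assign ?_ ?_) hcost.le)
  · refine ⟨show 3 < W' by omega, powE_ok _ _ _ (by omega) (by rw [u0]; omega) (by omega), ?_⟩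
    show 3 * (powE 300).eval ω' m₂ < W'
    rw [powE_eval, u0]; omega
  have hval : (eMul (.lit 3) (powE 300)).eval ω' m₂ = 3 * n ^ 300 := by
    show 3 * (powE 300).eval ω' m₂ = _
    rw [powE_eval, u0]
  rw [hval]
  refine Tr.le (Tr.forR (fun k m => m.a = m₂.a ∧ m.v 4 = 3 * n ^ 300 ∧ m.v 1 ≤ 1 ∧
    (m.v 1 ≠ 0 ↔ ∃ j < k, Good X μ j)) (fun _ => 45) (μ.v 1) hN ?_ ?_ ?_ ?_) ?_
  · refine ⟨rfl, by simp [setV_v], by simp [setV_v, u1], ?_⟩
    simp [setV_v, u1]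
  · rintro k hk m ⟨e1, e2, e3, e4⟩ hx
    refine ⟨⟨show 1 < W' by omega, show 0 < W' by omega, ?_⟩, ?_⟩
    · show m.a 10 1 0 < W'
      rw [e1, ha10]; exact hN
    · show m.a 10 1 0 = μ.v 1
      rw [e1, ha10]
  · rintro k hk m ⟨e1, e2, e3, e4⟩ hx
    have g0 : m.a 13 0 k = μ.a 2 0 k := by rw [e1, ha13]
    have g1 : m.a 13 1 k = μ.a 2 1 k := by rw [e1, ha13]
    have g2 : m.a 13 2 k = μ.a 2 2 k := by rw [e1, ha13]
    have b0 := hent 2 0 k
    have b1 := hent 2 1 k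
    have b2 := hent 2 2 k
    have hk' : k < W' := by omega
    refine Tr.le (Tr.seq (T₁ := 4) (T₂ := 41) ?_) (by norm_num)
    refine Tr.le (Tr.assign ⟨show 0 < W' by omega, show m.v 6 < W' by omega, ?_⟩ ?_) le_rfl
    · show m.a 13 0 (m.v 6) < W'
      rw [hx, g0]; omega
    simp only [Expr.eval]
    rw [show m.a 13 0 (m.v 6) = μ.a 2 0 k by rw [hx, g0]]
    refine Tr.le (Tr.seq (T₁ := 4) (T₂ := 37) ?_) (by norm_num)
    refine Tr.le (Tr.assign ⟨show 1 < W' by omega, ?_, ?_⟩ ?_) le_rfl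
    · simp only [Expr.ok, setV_v]
      norm_num; omega
    · simp only [Expr.eval, setV_v, setV_a]
      norm_num
      rw [hx, g1]; omega
    simp only [Expr.eval]
    rw [show (m.setV 7 (μ.a 2 0 k)).a 13 1 ((m.setV 7 (μ.a 2 0 k)).v 6) = μ.a 2 1 k by
      simp only [setV_a, setV_v]; norm_num; rw [hx, g1]]
    refine Tr.le (Tr.seq (T₁ := 4) (T₂ := 33) ?_) (by norm_num)
    refine Tr.le (Tr.assign ⟨show 2 < W' by omega, ?_, ?_⟩ ?_) le_rfl
    · simp only [Expr.ok, setV_v]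
      norm_num; omega
    · simp only [Expr.eval, setV_v, setV_a]
      norm_num
      rw [hx, g2]; omega
    simp only [Expr.eval]
    rw [show ((m.setV 7 (μ.a 2 0 k)).setV 8 (μ.a 2 1 k)).a 13 2
      (((m.setV 7 (μ.a 2 0 k)).setV 8 (μ.a 2 1 k)).v 6) = μ.a 2 2 k by
      simp only [setV_a, setV_v]; norm_num; rw [hx, g2]]
    set m₃ := ((m.setV 7 (μ.a 2 0 k)).setV 8 (μ.a 2 1 k)).setV 9 (μ.a 2 2 k) with hm₃
    have w7 : m₃.v 7 = μ.a 2 0 k := by simp [hm₃, setV_v]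
    have w8 : m₃.v 8 = μ.a 2 1 k := by simp [hm₃, setV_v]
    have w9 : m₃.v 9 = μ.a 2 2 k := by simp [hm₃, setV_v]
    have w4 : m₃.v 4 = 3 * n ^ 300 := by simp [hm₃, setV_v, e2]
    have w1 : m₃.v 1 = m.v 1 := by simp [hm₃, setV_v]
    have w6 : m₃.v 6 = k := by simp [hm₃, setV_v, hx]
    have wa : m₃.a = m₂.a := by simp [hm₃, e1]
    have z0 : ∀ i j, m₃.a 0 i j = X.enc.a 0 i j := fun i j => by rw [wa, ha0]
    have z1 : ∀ i j, m₃.a 1 i j = X.enc.a 1 i j := fun i j => by rw [wa, ha1]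
    have hholds : upTest.holds ω' m₃ ↔ Good X μ k := by
      show ((m₃.a 0 (m₃.v 7) (m₃.v 8) = 1 ∧ (m₃.a 0 (m₃.v 8) (m₃.v 9) = 1 ∧
        m₃.a 0 (m₃.v 7) (m₃.v 9) = 1)) ∧ m₃.a 1 (m₃.v 7) (m₃.v 8) + m₃.a 1 (m₃.v 8) (m₃.v 9) +
        m₃.a 1 (m₃.v 7) (m₃.v 9) = m₃.v 4) ↔ _
      rw [z0, z0, z0, z1, z1, z1, w7, w8, w9, w4]
      exact ⟨fun h => ⟨h.1.1, h.1.2.1, h.1.2.2, h.2⟩, fun h => ⟨⟨h.1, h.2.1, h.2.2.1⟩, h.2.2.2⟩⟩
    refine Tr.le (Tr.ite (T := 2) ?_ ?_ ?_) (by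
      simp [upTest, flagT, Test.cost, Expr.cost])
    · have y1 := enc_zero_le X (μ.a 2 0 k) (μ.a 2 1 k)
      have y2 := enc_zero_le X (μ.a 2 1 k) (μ.a 2 2 k)
      have y3 := enc_zero_le X (μ.a 2 0 k) (μ.a 2 2 k)
      have y4 := enc_one_le X (μ.a 2 0 k) (μ.a 2 1 k)
      have y5 := enc_one_le X (μ.a 2 1 k) (μ.a 2 2 k)
      have y6 := enc_one_le X (μ.a 2 0 k) (μ.a 2 2 k)
      refine ⟨⟨⟨⟨?_, ?_, ?_⟩, show 1 < W' by omega⟩, ⟨⟨?_, ?_, ?_⟩, show 1 < W' by omega⟩,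
        ⟨?_, ?_, ?_⟩, show 1 < W' by omega⟩, ⟨⟨⟨?_, ?_, ?_⟩, ⟨?_, ?_, ?_⟩, ?_⟩, ⟨?_, ?_, ?_⟩, ?_⟩, ?_⟩
      all_goals simp only [Expr.ok, Expr.eval, Op.fn, z0, z1, w7, w8, w9, w4]
      all_goals omega
    · intro hh
      refine Tr.le (Tr.assign (show 1 < W' by omega) ?_) le_rfl
      simp only [Expr.eval]
      refine ⟨by simp [setV_v, w6], ?_, ?_, ?_, ?_⟩
      · simp [wa]
      · simp [setV_v, w4]
      · simp [setV_v]
      · simp only [setV_v]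
        norm_num
        exact ⟨k, by omega, hholds.1 hh⟩
    · intro hh
      refine Tr.le (Tr.skip ?_) (by norm_num)
      refine ⟨w6, ?_, ?_, ?_, ?_⟩
      · simp [wa]
      · simp [setV_v, w4]
      · simp only [setV_v]; norm_num; rw [w1]; exact e3
      · simp only [setV_v]
        norm_num
        rw [w1]
        constructor
        · intro h
          obtain ⟨j, hj, hG⟩ := e4.1 h
          exact ⟨j, by omega, hG⟩
        · rintro ⟨j, hj, hG⟩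
          rcases Nat.lt_or_ge j k with h | h
          · exact e4.2 ⟨j, h, hG⟩
          · have : j = k := by omega
            subst this
            exact absurd (hholds.2 hG) hh
  · rintro m' ⟨h1, h2, h3, h4⟩ _
    exact h4
  · simp [Expr.cost]; omega

theorem lt_two_pow_bits (n : ℕ) : n < 2 ^ bits n := Nat.lt_pow_succ_log_self (by norm_num) n

/-- the numbers are words -/
theorem nums (n wd : ℕ) (hn : 1 ≤ n) :
    6 * n ^ 300 + 20 < 2 ^ ((wd + 400) * bits n) ∧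
      2 * 2 ^ (wd * bits n) ≤ 2 ^ ((wd + 400) * bits n) ∧ n < 2 ^ ((wd + 400) * bits n) := by
  have hB1 : 1 ≤ bits n := by unfold bits; omega
  have hn2 : n < 2 ^ bits n := lt_two_pow_bits n
  have hsplit : 2 ^ ((wd + 400) * bits n) = 2 ^ (wd * bits n) * (2 ^ bits n) ^ 400 := by
    rw [add_mul, pow_add, mul_comm 400, pow_mul 2 (bits n) 400]
  rw [hsplit]
  have hWg : 1 ≤ 2 ^ (wd * bits n) := Nat.one_le_two_pow
  generalize 2 ^ (wd * bits n) = w at *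
  have hx2 : 2 ≤ 2 ^ bits n := by
    calc 2 = 2 ^ 1 := by norm_num
      _ ≤ _ := Nat.pow_le_pow_right (by norm_num) hB1
  generalize 2 ^ bits n = x at *
  have hx400 : x ^ 400 = x ^ 300 * x ^ 99 * x := by rw [← pow_add, ← pow_succ]
  have hx99 : 100 ≤ x ^ 99 := by
    refine le_trans ?_ (Nat.pow_le_pow_left hx2 99)
    norm_num
  have hpow : n ^ 300 ≤ x ^ 300 := Nat.pow_le_pow_left hn2.le 300
  have hx300 : 1 ≤ x ^ 300 := Nat.one_le_pow _ _ (by omega)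
  have hn300 : n ≤ n ^ 300 := Nat.le_self_pow (by norm_num) n
  have h1 : x ^ 300 * 100 * 2 ≤ x ^ 400 := by
    rw [hx400]
    exact Nat.mul_le_mul (Nat.mul_le_mul_left _ hx99) hx2
  have h2 : x ^ 400 ≤ w * x ^ 400 := Nat.le_mul_of_pos_left _ hWg
  generalize x ^ 400 = y at *
  generalize x ^ 300 = z at *
  generalize n ^ 300 = u at *
  refine ⟨by omega, ?_, by omega⟩
  rw [mul_comm]
  exact Nat.mul_le_mul_left _ (by omega)

/-- PIECE UP -/
theorem up : P_UP := by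
  intro G θ hθ ⟨g, hg⟩ τ hτ
  refine ⟨upAlgo g, ?_⟩
  set ε := (τ - θ) / 2 with hε
  have hε0 : 0 < ε := by rw [hε]; linarith
  have hlarge : ∀ᶠ n : ℕ in Filter.atTop, (764 : ℝ) ≤ (n : ℝ) ^ ε :=
    ((tendsto_rpow_atTop hε0).comp tendsto_natCast_atTop_atTop).eventually_ge_atTop _
  filter_upwards [hg ε hε0, hlarge, Filter.eventually_ge_atTop 1,
    Filter.eventually_ge_atTop g.prog.mx] with n hL hn1 hn hmx
  intro X hX
  obtain ⟨hbig0, h2W, hnW⟩ := nums n g.wd hn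
  have hmx' : g.prog.mx < (upAlgo g).W n := lt_of_le_of_lt hmx hnW
  have hrun : ∀ ω : Tape ((upAlgo g).W n) (bits n), ∃ m t,
      Runs ((upAlgo g).W n) ω.word (upAlgo g).prog X.enc m t ∧ (t : ℝ) ≤ (n : ℝ) ^ τ ∧
      (m.v 1 ≠ 0 ↔ X.Yes) := by
    intro ω
    obtain ⟨μ, t, hr, ht, hlen, hlist⟩ := hL (fun i j => ω.word (2 * i) j) (fun i j => by
      unfold Tape.word
      split_ifs with h
      · exact (ω ⟨2 * i, h.1⟩ ⟨j, h.2⟩).2
      · positivity)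
    obtain ⟨m', c, r1, r2, r3⟩ := up_run (W' := (upAlgo g).W n) g X ω.word μ t hn h2W hmx'
      hbig0 hr
    refine ⟨m', c, r1, ?_, r3.trans (yes_iff X (G n) hX μ hlist)⟩
    have hnpos : (0 : ℝ) < n := by exact_mod_cast hn
    have hn1' : (1 : ℝ) ≤ n := by exact_mod_cast hn
    have hT1 : 1 ≤ (n : ℝ) ^ (θ + ε) := Real.one_le_rpow hn1' (by linarith)
    have hc : (c : ℝ) ≤ 700 + 10 * t + 54 * (μ.v 1 : ℝ) := by exact_mod_cast r2
    have hsplit : (n : ℝ) ^ τ = (n : ℝ) ^ (θ + ε) * (n : ℝ) ^ ε := by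
      rw [← Real.rpow_add hnpos, show θ + ε + ε = τ by rw [hε]; ring]
    rw [hsplit]
    calc (c : ℝ) ≤ 700 + 10 * t + 54 * (μ.v 1 : ℝ) := hc
      _ ≤ 700 * (n : ℝ) ^ (θ + ε) + 10 * (n : ℝ) ^ (θ + ε) + 54 * (n : ℝ) ^ (θ + ε) := by
          linarith
      _ = (n : ℝ) ^ (θ + ε) * 764 := by ring
      _ ≤ (n : ℝ) ^ (θ + ε) * (n : ℝ) ^ ε := by gcongr
  refine ⟨fun ω => ?_, ?_⟩
  · obtain ⟨m, t, h1, h2, h3⟩ := hrun ω
    exact ⟨m, t, h1, h2⟩
  · have hall : (fun ω : Tape ((upAlgo g).W n) (bits n) => ∃ m t,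
        Runs ((upAlgo g).W n) ω.word (upAlgo g).prog X.enc m t ∧ (m.v 1 ≠ 0 ↔ X.Yes)) =
        fun _ => True := by
      funext ω
      apply propext
      refine ⟨fun _ => trivial, fun _ => ?_⟩
      obtain ⟨m, t, h1, h2, h3⟩ := hrun ω
      exact ⟨m, t, h1, h3⟩
    rw [hall]
    have : Nonempty (Fin (2 ^ bits n)) := ⟨⟨0, by positivity⟩⟩
    have hone : prob (fun _ : Tape ((upAlgo g).W n) (bits n) => True) = 1 := by
      unfold prob
      have h1 : Nat.card {ω : Tape ((upAlgo g).W n) (bits n) // True} =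
          Nat.card (Tape ((upAlgo g).W n) (bits n)) :=
        Nat.card_congr (Equiv.subtypeUnivEquiv (fun _ => trivial))
      rw [h1, div_self]
      have h2 : 0 < Nat.card (Tape ((upAlgo g).W n) (bits n)) := Nat.card_pos
      exact_mod_cast h2.ne'
    rw [hone]
    norm_num

end Pool.Agent.W2helper28.ET
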